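import Pool.Agent.PSY.Final

/-!
# The achromatic and the pseudoachromatic number of a forest are asymptotically equal
-/

set_option autoImplicit false

namespace Pool.Agent.Results.MP_67eb03_co.Asymptotic

/-- For every `ε > 0` there is `k₀` such that every finite forest which has a complete partition
of order `k ≥ k₀` has a complete proper colouring of order at least `(1 - ε) k`. -/
theorem result : ∀ ε : ℝ, 0 < ε → ∃ k₀ : ℕ,
    ∀ (V : Type) [Fintype V] (G : SimpleGraph V), G.IsAcyclic →
      ∀ k : ℕ, k₀ ≤ k →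
        (∃ c : V → Fin k, Function.Surjective c ∧
          ∀ i j : Fin k, i ≠ j → ∃ u v : V, c u = i ∧ c v = j ∧ G.Adj u v) →
        ∃ m : ℕ, (1 - ε) * (k : ℝ) ≤ (m : ℝ) ∧
          ∃ c : V → Fin m, Function.Surjective c ∧
            (∀ u v : V, G.Adj u v → c u ≠ c v) ∧
            ∀ i j : Fin m, i ≠ j → ∃ u v : V, c u = i ∧ c v = j ∧ G.Adj u v := by
  intro ε hε
  obtain ⟨k₀, h⟩ := Pool.Agent.PSY.asymptotic ε hε
  exact ⟨k₀, fun V _ G hG k hk hc => h k hk V G hG hc⟩

end Pool.Agent.Results.MP_67eb03_co.Asymptotic
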