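import Pool.Agent.PSA.Diam5

/-!
# Q1 for trees of diameter at most 5
-/

set_option autoImplicit false

namespace Pool.Agent.Results.MP_67eb03_co.Diam5

/-- Every finite tree of diameter at most 5 which has a complete partition of order `k` has a
complete proper colouring of some order `m` with `k ≤ m + 1`. -/
theorem result (V : Type) [Fintype V] (T : SimpleGraph V) (hT : T.IsTree)
    (hd : ∀ u v : V, T.dist u v ≤ 5) (k : ℕ)
    (h : ∃ c : V → Fin k, Function.Surjective c ∧
      ∀ i j : Fin k, i ≠ j → ∃ u v : V, c u = i ∧ c v = j ∧ T.Adj u v) :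
    ∃ m : ℕ, k ≤ m + 1 ∧
      ∃ c : V → Fin m, Function.Surjective c ∧
        (∀ u v : V, T.Adj u v → c u ≠ c v) ∧
        ∀ i j : Fin m, i ≠ j → ∃ u v : V, c u = i ∧ c v = j ∧ T.Adj u v :=
  Pool.Agent.PSA.diam5 hT hd h

end Pool.Agent.Results.MP_67eb03_co.Diam5
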