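import Pool.Agent.PSA.LeafHall
import Pool.Agent.PSA.Lpt

/-!
# Pendant edges and the achromatic number of a forest
-/

open Finset

set_option autoImplicit false

namespace Pool.Agent.Results.MP_67eb03_co.PendantEdges

/-- The number of pendant edges of `G` (edges one of whose ends has no other neighbour) none of
whose ends lies in `Y`. -/
noncomputable def pendantAvoiding {V : Type} (G : SimpleGraph V) (Y : Finset V) : ℕ :=
  {e : Sym2 V | e ∈ G.edgeSet ∧ (∃ v ∈ e, ∀ x y, G.Adj v x → G.Adj v y → x = y) ∧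
    ∀ y ∈ Y, y ∉ e}.ncard

/-- A partition in which any two classes are joined by a pendant edge satisfies the deletion
condition. -/
theorem deletion_of_partition {V : Type} [Fintype V] (G : SimpleGraph V) (k : ℕ)
    (c : V → Fin k)
    (hc : ∀ i j : Fin k, i ≠ j → ∃ u v : V, c u = i ∧ c v = j ∧ G.Adj u v ∧
      ((∀ x, G.Adj u x → x = v) ∨ (∀ x, G.Adj v x → x = u)))
    (Y : Finset V) : (k - Y.card).choose 2 ≤ pendantAvoiding G Y := by
  classical
  set J : Finset (Fin k) := univ \ Y.image c with hJ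
  have hJc : k - Y.card ≤ J.card := by
    have h1 : J.card = k - (Y.image c).card := by
      rw [hJ, card_sdiff_of_subset (subset_univ _), card_univ, Fintype.card_fin]
    have h2 : (Y.image c).card ≤ Y.card := card_image_le
    omega
  refine (Nat.choose_le_choose 2 hJc).trans ?_
  set P : Set (Sym2 V) := {e : Sym2 V | e ∈ G.edgeSet ∧
    (∃ v ∈ e, ∀ x y, G.Adj v x → G.Adj v y → x = y) ∧ ∀ y ∈ Y, y ∉ e} with hP
  have hfin : P.Finite := Set.toFinite P
  have h1 : (J.offDiag.image (Function.uncurry Sym2.mk)).card = J.card.choose 2 :=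
    Sym2.card_image_offDiag J
  have h2 : J.offDiag.image (Function.uncurry Sym2.mk) ⊆ hfin.toFinset.image (Sym2.map c) := by
    intro s hs
    rw [mem_image] at hs
    obtain ⟨⟨i, j⟩, hij, rfl⟩ := hs
    rw [mem_offDiag] at hij
    obtain ⟨hi, hj, hne⟩ := hij
    obtain ⟨u, v, hu, hv, huv, hpen⟩ := hc i j hne
    rw [mem_image]
    refine ⟨s(u, v), ?_, ?_⟩
    · rw [Set.Finite.mem_toFinset]
      refine ⟨huv, ?_, ?_⟩
      · rcases hpen with h | h
        · exact ⟨u, Sym2.mem_mk_left u v, fun x y hx hy => (h x hx).trans (h y hy).symm⟩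
        · exact ⟨v, Sym2.mem_mk_right u v, fun x y hx hy => (h x hx).trans (h y hy).symm⟩
      · intro y hy hye
        rw [Sym2.mem_iff] at hye
        rw [hJ, mem_sdiff] at hi hj
        rcases hye with rfl | rfl
        · exact hi.2 (mem_image.2 ⟨y, hy, hu⟩)
        · exact hj.2 (mem_image.2 ⟨y, hy, hv⟩)
    · rw [Sym2.map_mk, hu, hv]
      rfl
  have h3 : (hfin.toFinset).card = P.ncard := (Set.ncard_eq_toFinset_card P hfin).symm
  have h4 := card_le_card h2
  have h5 : (hfin.toFinset.image (Sym2.map c)).card ≤ (hfin.toFinset).card := card_image_le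
  change J.card.choose 2 ≤ P.ncard
  omega

/-- The deletion condition of order `k` gives a complete proper colouring of order at least
`k - 1`. -/
theorem colouring_of_deletion {V : Type} [Fintype V] (G : SimpleGraph V) (hG : G.IsAcyclic)
    (k : ℕ) (hN : ∀ Y : Finset V, (k - Y.card).choose 2 ≤ pendantAvoiding G Y) :
    ∃ m : ℕ, k ≤ m + 1 ∧ Pool.Agent.PSA.HasCC G m := by
  classical
  rcases isEmpty_or_nonempty V with hV | hV
  · refine ⟨0, ?_, fun v => (hV.false v).elim, fun i => i.elim0, fun u => (hV.false u).elim,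
      fun i => i.elim0⟩
    have h1 := hN ∅
    have h2 : pendantAvoiding G ∅ = 0 := by
      unfold pendantAvoiding
      rw [Set.ncard_eq_zero]
      ext e
      simp only [Set.mem_ofPred_eq, Set.mem_empty_iff_false, iff_false]
      rintro ⟨_, ⟨v, _⟩, _⟩
      exact hV.false v
    rw [h2, card_empty, Nat.sub_zero] at h1
    by_contra hlt
    have h3 : (2 : ℕ).choose 2 ≤ k.choose 2 := Nat.choose_le_choose 2 (by omega)
    rw [Nat.choose_self] at h3
    omega
  obtain ⟨par, hpar⟩ := Pool.Agent.PSA.exists_parent G hG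
  set e := Fintype.equivFin V with he
  -- loose leaves
  set L : V → Prop := fun v => ∃ x, (∀ y, G.Adj v y ↔ y = x) ∧
    ((∀ y, G.Adj x y ↔ y = v) → e x < e v) with hLdef
  set nb : V → V := fun v => if h : ∃ x, ∀ y, G.Adj v y ↔ y = x then h.choose else v with hnb
  have hnb1 : ∀ v, L v → ∀ y, G.Adj v y ↔ y = nb v := by
    rintro v ⟨x, hx, _⟩
    have hex : ∃ x, ∀ y, G.Adj v y ↔ y = x := ⟨x, hx⟩
    have h1 : nb v = hex.choose := by
      simp only [hnb, dif_pos hex]
    rw [h1]
    exact hex.choose_spec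
  have hL : ∀ v, L v → ¬ L (nb v) ∧ ∀ x, G.Adj v x ↔ x = nb v := by
    intro v hv
    refine ⟨fun hL2 => ?_, hnb1 v hv⟩
    have h1 := hnb1 v hv
    have h2 := hnb1 (nb v) hL2
    have hadj : G.Adj v (nb v) := (h1 _).2 rfl
    have h3 : v = nb (nb v) := (h2 v).1 hadj.symm
    obtain ⟨x, hx, hx2⟩ := hv
    obtain ⟨x', hx', hx2'⟩ := hL2
    have hxn : x = nb v := (h1 x).1 ((hx x).2 rfl)
    have hxn' : x' = v := ((h2 x').1 ((hx' x').2 rfl)).trans h3.symm
    subst hxn
    subst hxn'
    have h4 := hx2 hx'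
    have h5 := hx2' hx
    exact absurd (h4.trans h5) (lt_irrefl _)
  set w : V → ℕ := fun v => (univ.filter fun l => L l ∧ nb l = v).card with hw
  have hsum : ∀ (p : V → Prop) [DecidablePred p], ∑ v with p v, w v =
      (univ.filter fun l => L l ∧ p (nb l)).card := by
    intro p hp
    rw [card_eq_sum_card_fiberwise (f := nb) (t := univ.filter p)]
    · refine sum_congr rfl fun v hv => ?_
      rw [mem_filter] at hv
      rw [hw, filter_filter]
      refine congrArg card (filter_congr fun l _ => ?_)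
      constructor
      · rintro ⟨h1, h2⟩
        refine ⟨⟨h1, ?_⟩, h2⟩
        rw [h2]
        exact hv.2
      · rintro ⟨⟨h1, _⟩, h2⟩
        exact ⟨h1, h2⟩
    · intro l hl
      have hl' := (mem_filter.1 hl).2
      exact mem_filter.2 ⟨mem_univ _, hl'.2⟩
  have hN' : ∀ Y : Finset V, (k - 1 + 1 - Y.card).choose 2 ≤ ∑ v with v ∉ Y, w v := by
    intro Y
    rcases Nat.eq_zero_or_pos k with hk | hk
    · subst hk
      have h0 : (0 - 1 + 1 - Y.card).choose 2 = 0 := Nat.choose_eq_zero_of_lt (by omega)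
      rw [h0]
      exact Nat.zero_le _
    have hk1 : k - 1 + 1 = k := Nat.sub_add_cancel hk
    rw [hk1]
    refine (hN Y).trans ?_
    rw [hsum]
    unfold pendantAvoiding
    rw [← Set.ncard_coe_finset]
    refine (Set.ncard_le_ncard (t := (fun l => s(l, nb l)) ''
      (↑(univ.filter fun l => L l ∧ nb l ∉ Y) : Set V)) ?_ (Set.toFinite _)).trans
      (Set.ncard_image_le (Set.toFinite _))
    rintro e' ⟨he1, ⟨v, hve, hv⟩, hY⟩
    -- the other end
    obtain ⟨x, rfl⟩ := hve
    have hvx : G.Adj v x := he1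
    have hviff : ∀ y, G.Adj v y ↔ y = x := fun y =>
      ⟨fun hy => hv y x hy hvx, fun hy => hy ▸ hvx⟩
    have hne : v ≠ x := hvx.ne
    rw [Set.mem_image]
    by_cases hLv : L v
    · refine ⟨v, ?_, ?_⟩
      · rw [mem_coe, mem_filter]
        have hx : x = nb v := (hnb1 v hLv x).1 hvx
        refine ⟨mem_univ _, hLv, ?_⟩
        rw [← hx]
        intro hxY
        exact hY x hxY (Sym2.mem_mk_right v x)
      · have hx : x = nb v := (hnb1 v hLv x).1 hvx
        rw [← hx]
    · -- `x` is the chosen leaf of a two-vertex component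
      have hx1 : (∀ y, G.Adj x y ↔ y = v) ∧ ¬ e x < e v := by
        by_contra hcon
        apply hLv
        refine ⟨x, hviff, fun h1 => ?_⟩
        by_contra h2
        exact hcon ⟨h1, h2⟩
      have hLx : L x := by
        refine ⟨v, hx1.1, fun _ => ?_⟩
        have h1 : e v ≠ e x := fun h => hne (e.injective h)
        exact lt_of_le_of_ne (not_lt.1 hx1.2) h1
      have hv2 : v = nb x := (hnb1 x hLx v).1 hvx.symm
      refine ⟨x, ?_, ?_⟩
      · rw [mem_coe, mem_filter]
        refine ⟨mem_univ _, hLx, ?_⟩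
        rw [← hv2]
        intro hvY
        exact hY v hvY (Sym2.mem_mk_left v x)
      · rw [← hv2]
        exact Sym2.eq_swap
  obtain ⟨g, hg1, hg2⟩ := Pool.Agent.PSA.lpt (m := k - 1) G par hpar w (by
    intro Y
    convert hN' Y)
  obtain ⟨m, hm, hcc⟩ := Pool.Agent.PSA.leaf_hall G hV L nb hL g
    (fun u v i _ _ huv hu => hg1 u v i huv hu) (by
      intro X
      refine (hg2 X).trans ?_
      refine le_trans (le_of_eq ?_) (Nat.le_add_right _ _)
      have h1 := hsum (fun v => ∃ i ∈ X, g v = some i)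
      unfold Pool.Agent.PSA.leafW
      convert h1)
  exact ⟨m, by omega, hcc⟩

/-- A complete proper colouring of an induced subgraph extends. -/
theorem extend_induce {V : Type} [Fintype V] (G : SimpleGraph V) (U : Set V) {m : ℕ}
    (h : Pool.Agent.PSA.HasCC (G.induce U) m) : ∃ m', m ≤ m' ∧ Pool.Agent.PSA.HasCC G m' := by
  classical
  obtain ⟨c, hc1, hc2, hc3⟩ := h
  set d : V → Option ℕ := fun v => if hv : v ∈ U then some (c ⟨v, hv⟩ : ℕ) else none with hd
  have hdU : ∀ v (hv : v ∈ U), d v = some (c ⟨v, hv⟩ : ℕ) := fun v hv => by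
    simp only [hd, dif_pos hv]
  have hdinv : ∀ v i, d v = some i → ∃ hv : v ∈ U, (c ⟨v, hv⟩ : ℕ) = i := by
    intro v i hv
    by_cases hvU : v ∈ U
    · rw [hdU v hvU] at hv
      exact ⟨hvU, Option.some.inj hv⟩
    · simp only [hd, dif_neg hvU] at hv
      exact absurd hv (by simp)
  have hcol : Pool.Agent.PSA.PCol G m d := by
    refine ⟨?_, ?_, ?_, ?_⟩
    · intro v i hv
      obtain ⟨hvU, rfl⟩ := hdinv v i hv
      exact (c _).isLt
    · intro u v i huv hu hv
      obtain ⟨huU, h1⟩ := hdinv u i hu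
      obtain ⟨hvU, h2⟩ := hdinv v i hv
      exact hc2 ⟨u, huU⟩ ⟨v, hvU⟩ huv (Fin.ext (h1.trans h2.symm))
    · intro i j hij hj
      obtain ⟨u, v, hu, hv, huv⟩ := hc3 ⟨i, hij.trans hj⟩ ⟨j, hj⟩
        (fun h => hij.ne (congrArg Fin.val h))
      refine ⟨u, v, ?_, ?_, huv⟩
      · rw [hdU u u.2, hu]
      · rw [hdU v v.2, hv]
    · intro i hi
      obtain ⟨v, hv⟩ := hc1 ⟨i, hi⟩
      refine ⟨v, ?_⟩
      rw [hdU v v.2, hv]
  exact hcol.extend

/-- Let `G` be a finite forest, `U` a set of vertices, and `G[U]` the forest induced on `U`.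
(1) If `U` can be split into `k` classes any two of which are joined by a pendant edge of `G[U]`,
then for every `Y ⊆ U` at least `C(k - |Y|, 2)` pendant edges of `G[U]` avoid `Y`.
(2) If for every `Y ⊆ U` at least `C(k - |Y|, 2)` pendant edges of `G[U]` avoid `Y`, then `G` has
a complete proper colouring of order `m ≥ k - 1`. -/
theorem result (V : Type) [Fintype V] (G : SimpleGraph V) (hG : G.IsAcyclic) (U : Set V) (k : ℕ) :
    ((∃ c : U → Fin k, ∀ i j : Fin k, i ≠ j → ∃ u v : U, c u = i ∧ c v = j ∧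
        (G.induce U).Adj u v ∧
        ((∀ x, (G.induce U).Adj u x → x = v) ∨ (∀ x, (G.induce U).Adj v x → x = u))) →
      ∀ Y : Finset U, (k - Y.card).choose 2 ≤ pendantAvoiding (G.induce U) Y) ∧
    ((∀ Y : Finset U, (k - Y.card).choose 2 ≤ pendantAvoiding (G.induce U) Y) →
      ∃ m : ℕ, k ≤ m + 1 ∧
        ∃ c : V → Fin m, Function.Surjective c ∧
          (∀ u v : V, G.Adj u v → c u ≠ c v) ∧
          ∀ i j : Fin m, i ≠ j → ∃ u v : V, c u = i ∧ c v = j ∧ G.Adj u v) := by
  classical
  have : Fintype U := Fintype.ofFinite U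
  refine ⟨fun ⟨c, hc⟩ Y => deletion_of_partition (G.induce U) k c hc Y, fun hN => ?_⟩
  obtain ⟨m, hm, hcc⟩ := colouring_of_deletion (G.induce U) (hG.induce U) k hN
  obtain ⟨m', hm', hcc'⟩ := extend_induce G U hcc
  exact ⟨m', by omega, hcc'⟩

end Pool.Agent.Results.MP_67eb03_co.PendantEdges
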