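import Pool.Agent.PSA.Parity

/-!
# A sufficient condition, for all graphs
-/

set_option autoImplicit false

namespace Pool.Agent.Results.MP_67eb03_co.Shift

/-- Let `c` be a partition of the vertices of a finite graph into `k` classes, `L` a set of vertices
of degree 1 no two of which are adjacent and `A` a set of vertices such that, among the edges with
no end in `L`, those inside a class are exactly those which join `A` to its complement.  If any two
classes are joined by an edge which has an end in `L` or both ends in `A`, then there is a complete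
proper colouring of some order `m` with `k ≤ m + 1`. -/
theorem result (V : Type) [Fintype V] [Nonempty V] (G : SimpleGraph V) (k : ℕ) (c : V → Fin k)
    (L A : Set V)
    (hL : ∀ v ∈ L, ∃ w, w ∉ L ∧ ∀ x, G.Adj v x ↔ x = w)
    (hA : ∀ u v, u ∉ L → v ∉ L → G.Adj u v → (c u = c v ↔ ¬ (u ∈ A ↔ v ∈ A)))
    (hc : ∀ i j : Fin k, i ≠ j → ∃ u v : V, c u = i ∧ c v = j ∧ G.Adj u v ∧
      (u ∈ L ∨ v ∈ L ∨ (u ∈ A ∧ v ∈ A))) :
    ∃ m : ℕ, k ≤ m + 1 ∧
      ∃ c' : V → Fin m, Function.Surjective c' ∧
        (∀ u v : V, G.Adj u v → c' u ≠ c' v) ∧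
        ∀ i j : Fin m, i ≠ j → ∃ u v : V, c' u = i ∧ c' v = j ∧ G.Adj u v := by
  classical
  refine Pool.Agent.PSA.parity G inferInstance (fun v => v ∈ L)
    (fun v => if h : v ∈ L then (hL v h).choose else v) ?_ (fun v => v ∈ A) c ?_ ?_ ?_
  · intro v hv
    simp only [dif_pos hv]
    exact (hL v hv).choose_spec
  · intro u v hu hv huv hne
    by_contra hcon
    exact hne ((hA u v hu hv huv).2 hcon)
  · intro u v hu hv huv heq
    have := (hA u v hu hv huv).1 heq
    by_cases h1 : u ∈ A <;> by_cases h2 : v ∈ A <;> simp_all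
  · intro i j hij
    obtain ⟨u, v, h1, h2, h3, h4⟩ := hc i j hij
    refine ⟨u, v, h1, h2, h3, ?_⟩
    rcases h4 with h4 | h4 | h4
    · exact Or.inr (Or.inl h4)
    · exact Or.inr (Or.inr h4)
    · exact Or.inl h4

end Pool.Agent.Results.MP_67eb03_co.Shift
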